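import Pool.Agent.N234.TG.QSt
import Pool.Agent.H779R2.An.LAb

set_option autoImplicit false
set_option linter.unusedSectionVars false

open Filter Topology Set Metric unitInterval

namespace Pool.Agent.N234.TG

open Pool.Agent.H789R2.AN Pool.Agent.H789R2.GP

section pi

variable {A B : Type*} [TopologicalSpace A] [TopologicalSpace B] {π : A → B}

private theorem pi_cast {x y x' y' : B} (h1 : x' = x)
    (h2 : y' = y) (γ γ' : Path x y) (h : Path.Homotopic (γ.cast h1 h2) (γ'.cast h1 h2)) :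
    Path.Homotopic γ γ' := by
  subst h1
  subst h2
  exact h

/-- The monodromy of a simply connected covering is injective. -/
theorem mono_inj [SimplyConnectedSpace A] (cov : IsCoveringMap π) {x : B}
    (α β : FundamentalGroup B x)
    (e : π ⁻¹' {x}) (h : cov.monodromy α e = cov.monodromy β e) : α = β := by
  obtain ⟨γ⟩ := α
  obtain ⟨γ'⟩ := β
  have h' : cov.liftPath γ e.1 (γ.source.trans e.2.symm) 1 =
      cov.liftPath γ' e.1 (γ'.source.trans e.2.symm) 1 := congrArg Subtype.val h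
  have h0 : ∀ t, π (cov.liftPath γ e.1 (γ.source.trans e.2.symm) t) = γ t := fun t =>
    congrFun (cov.liftPath_lifts γ e.1 (γ.source.trans e.2.symm)) t
  have h0' : ∀ t, π (cov.liftPath γ' e.1 (γ'.source.trans e.2.symm) t) = γ' t := fun t =>
    congrFun (cov.liftPath_lifts γ' e.1 (γ'.source.trans e.2.symm)) t
  let P : Path e.1 (cov.liftPath γ e.1 (γ.source.trans e.2.symm) 1) :=
    ⟨cov.liftPath γ e.1 (γ.source.trans e.2.symm), cov.liftPath_zero _ _ _, rfl⟩
  let P' : Path e.1 (cov.liftPath γ e.1 (γ.source.trans e.2.symm) 1) :=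
    ⟨cov.liftPath γ' e.1 (γ'.source.trans e.2.symm), cov.liftPath_zero _ _ _, h'.symm⟩
  have h2 : π (cov.liftPath γ e.1 (γ.source.trans e.2.symm) 1) = x := (h0 1).trans γ.target
  have hP : P.map cov.continuous = γ.cast e.2 h2 := by
    ext t
    exact h0 t
  have hP' : P'.map cov.continuous = γ'.cast e.2 h2 := by
    ext t
    exact h0' t
  have hh : Path.Homotopic (P.map cov.continuous) (P'.map cov.continuous) :=
    (SimplyConnectedSpace.paths_homotopic P P').map ⟨π, cov.continuous⟩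
  rw [hP, hP'] at hh
  exact Quotient.sound (pi_cast _ _ _ _ hh)

/-- A function on a simply connected covering whose local increments come from the base and which
separates the points of a fibre gives an injective homomorphism of the fundamental group. -/
theorem exists_hom {G : Type*} [Group G] [SimplyConnectedSpace A] (cov : IsCoveringMap π)
    (D : A → G) (κ : B → B → G)
    (hD : ∀ z, ∀ᶠ z' in 𝓝 z, D z' = D z * κ (π z) (π z'))
    (hsep : ∀ z z', π z = π z' → D z = D z' → z = z') {x : B} (b : π ⁻¹' {x}) :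
    ∃ ρ : FundamentalGroup B x →* G, Function.Injective ρ ∧
      ∀ H : Subgroup G, (∀ z, ∀ᶠ z' in 𝓝 z, κ (π z) (π z') ∈ H) → ∀ α, ρ α ∈ H := by
  -- the increments along two lifts of the same path
  have key : ∀ Γ Γ' : C(I, A), (∀ t, π (Γ t) = π (Γ' t)) →
      (D (Γ 0))⁻¹ * D (Γ 1) = (D (Γ' 0))⁻¹ * D (Γ' 1) := by
    intro Γ Γ' hΓ
    have hl : IsLocallyConstant (fun t : I => D (Γ t) * (D (Γ' t))⁻¹) := by
      rw [IsLocallyConstant.iff_eventually_eq]
      intro t
      filter_upwards [Γ.continuous.tendsto t (hD (Γ t)), Γ'.continuous.tendsto t (hD (Γ' t))]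
        with r h1 h2
      rw [h1, h2, hΓ t, hΓ r, mul_inv_rev]
      simp only [mul_assoc, mul_inv_cancel_left]
    have h1 := hl.apply_eq_of_preconnectedSpace 0 1
    have h2 : D (Γ 1) = D (Γ 0) * (D (Γ' 0))⁻¹ * D (Γ' 1) := by
      rw [h1, inv_mul_cancel_right]
    rw [h2]
    simp only [mul_assoc, inv_mul_cancel_left]
  have key2 : ∀ (α : FundamentalGroup B x) (e : π ⁻¹' {x}),
      (D e.1)⁻¹ * D (cov.monodromy α e).1 = (D b.1)⁻¹ * D (cov.monodromy α b).1 := by
    rintro ⟨γ⟩ e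
    have h1 := key (cov.liftPath γ e.1 (γ.source.trans e.2.symm))
      (cov.liftPath γ b.1 (γ.source.trans b.2.symm)) (fun t =>
        (congrFun (cov.liftPath_lifts γ e.1 (γ.source.trans e.2.symm)) t).trans
        (congrFun (cov.liftPath_lifts γ b.1 (γ.source.trans b.2.symm)) t).symm)
    rw [cov.liftPath_zero, cov.liftPath_zero] at h1
    exact h1
  let hol : FundamentalGroup B x → G := fun α => (D b.1)⁻¹ * D (cov.monodromy α b).1
  have hmul : ∀ α β, hol (α * β) = hol β * hol α := by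
    intro α β
    have h1 : cov.monodromy (α * β) b = cov.monodromy α (cov.monodromy β b) :=
      cov.monodromy_trans_apply (x := x) (y := x) (z := x) β α b
    show (D b.1)⁻¹ * D (cov.monodromy (α * β) b).1 = ((D b.1)⁻¹ * D (cov.monodromy β b).1) *
      ((D b.1)⁻¹ * D (cov.monodromy α b).1)
    rw [h1, ← key2 α (cov.monodromy β b)]
    simp only [mul_assoc, mul_inv_cancel_left]
  refine ⟨MonoidHom.mk' (fun α => (hol α)⁻¹) (fun α β => by rw [hmul, mul_inv_rev]), ?_, ?_⟩
  swap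
  · rintro H hH ⟨γ⟩
    apply H.inv_mem
    set Γ := cov.liftPath γ b.1 (γ.source.trans b.2.symm) with hΓ
    have hl : IsLocallyConstant (fun t : I => (QuotientGroup.mk (D (Γ t)) : G ⧸ H)) := by
      rw [IsLocallyConstant.iff_eventually_eq]
      intro t
      filter_upwards [Γ.continuous.tendsto t (hD (Γ t)), Γ.continuous.tendsto t (hH (Γ t))]
        with r h1 h2
      rw [eq_comm, QuotientGroup.eq, h1, inv_mul_cancel_left]
      exact h2
    have h1 := hl.apply_eq_of_preconnectedSpace 0 1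
    rw [QuotientGroup.eq] at h1
    have h2 : Γ 0 = b.1 := cov.liftPath_zero _ _ _
    rw [h2] at h1
    exact h1
  intro α β hαβ
  have h1 : (hol α)⁻¹ = (hol β)⁻¹ := hαβ
  have h2 : hol α = hol β := inv_injective h1
  have h3 : D (cov.monodromy α b).1 = D (cov.monodromy β b).1 := mul_left_cancel h2
  apply mono_inj cov α β b
  apply Subtype.ext
  exact hsep _ _ ((cov.monodromy α b).2.trans (cov.monodromy β b).2.symm) h3

end pi

variable {X : Type*} [MetricSpace X]

/-- the developing map -/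
noncomputable def LC.dev {g : X ≃ₜ X} {G : Type*} [Group G] (C : LC g G) {c : ℝ} (T : QS g c)
    {p : X} (z : Leaf g p) : G := C.cu p z.u * C.cs z.u (z.pr T)

theorem LC.dev_loc [CompactSpace X] {g : X ≃ₜ X} {G : Type*} [Group G] (C : LC g G) {c₀ c : ℝ}
    (h : LP g c₀) (hc : 0 < c) (T : QS g c) (hT : ∀ a s u x, T.Q a s u x ↔ C.Qd a s u x)
    {p : X} (z : Leaf g p) :
    ∀ᶠ z' in 𝓝 z, C.dev T z' = C.dev T z * C.π (z.pr T) (z'.pr T) := by
  have hη := C.η_pos
  have hc₀ := h.c_pos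
  obtain ⟨r, hr, h1⟩ := Nb_of_dist hc T z (min (C.η / 4) c₀) (by positivity)
  filter_upwards [Metric.ball_mem_nhds z hr] with z' hz'
  obtain ⟨w, hw, h2, h3⟩ := h1 z' (by rw [dist_comm]; exact hz')
  obtain ⟨q1, q2, q3, q4, q5⟩ := (hT _ _ _ _).mp hw
  obtain ⟨r1, r2, r3, r4, r5⟩ := (hT _ _ _ _).mp (z'.pr_spec T)
  obtain ⟨t1, t2, t3, t4, t5⟩ := (hT _ _ _ _).mp (z.pr_spec T)
  have m1 : min (C.η / 4) c₀ ≤ C.η / 4 := min_le_left _ _
  have m2 : min (C.η / 4) c₀ ≤ c₀ := min_le_right _ _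
  have e0 : C.η / 4 < C.η := by linarith
  have w1 : WS g.symm w (z'.pr T) := WS.of_SR (h.cU _ _ (h3.mono m2))
  have w2 : WS g (z.pr T) w := WS.of_SR (h.cS _ _ (h2.mono m2))
  have d1 : dist (z.pr T) w ≤ C.η / 4 := (h2 0).trans m1
  have d2 : dist w (z'.pr T) ≤ C.η / 4 := (h3 0).trans m1
  have d3 : dist (z.pr T) (z'.pr T) < C.η := by
    have := dist_triangle (z.pr T) w (z'.pr T)
    linarith
  unfold LC.dev
  rw [← r5, C.cu_mul q4 w1, ← mul_assoc, q5, C.cs_mul t3 w2, C.cs_eq_π e0 (h2.mono m1),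
    C.cu_eq_π e0 (h3.mono m1), C.add (z.pr T) w (z'.pr T) (by linarith) (by linarith) d3]
  simp only [mul_assoc]

variable {g : X ≃ₜ X} {G Y : Type*} [Group G] [TopologicalSpace G] [IsTopologicalGroup G]
  [TopologicalSpace Y] [T2Space Y] [LocallyCompactSpace Y] [MulAction G Y] [ContinuousSMul G Y]

/-- The holonomy representation is faithful. -/
theorem TS.exists_hol [CompactSpace X] {E' : Type*} [NormedAddCommGroup E'] [NormedSpace ℝ E']
    [ProperSpace E'] [ChartedSpace E' X] [PathConnectedSpace X] (C : TS g G Y) {c₀ c : ℝ}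
    (h : LP g c₀) (hc : 0 < c) (T : QS g c) (hT : ∀ a s u x, T.Q a s u x ↔ C.Qd a s u x)
    (p : X) (N : ℕ) (hN : 1 ≤ N) (hp : g^[N] p = p) (x : X) :
    ∃ ρ : FundamentalGroup X x →* G, Function.Injective ρ ∧
      ∀ H : Subgroup G, (∃ δ > 0, ∀ x y, dist x y < δ → C.π x y ∈ H) → ∀ α, ρ α ∈ H := by
  have cov : IsCoveringMap (Leaf.pr T : Leaf g p → X) := pr_isCoveringMap h hc T p
  have hsc : SimplyConnectedSpace (Leaf g p) := by
    obtain ⟨ψ, hψ, -⟩ := cov.isLocalHomeomorph (Leaf.base g p)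
    let Φ := ψ.trans (chartAt E' (ψ (Leaf.base g p)))
    have hΦ : Leaf.base g p ∈ Φ.source := by
      rw [OpenPartialHomeomorph.trans_source]
      exact ⟨hψ, mem_chart_source E' _⟩
    obtain ⟨e⟩ := leaf_homeo h p N hN hp Φ hΦ
    have : ContractibleSpace (Leaf g p) := e.symm.contractibleSpace
    infer_instance
  have hb : (Leaf.base g p).pr T = p := by
    obtain ⟨ε, hε, ht⟩ := T.tiny
    have h1 : SR g ε p p := fun k => by rw [dist_self]; exact hε.le
    have h2 : SR g.symm ε p p := fun k => by rw [dist_self]; exact hε.le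
    exact Leaf.pr_eq T (ht p p p p h1 h2 h1 h2)
  have hsep : ∀ z z' : Leaf g p, z.pr T = z'.pr T → C.dev T z = C.dev T z' → z = z' := by
    intro z z' h1 h2
    obtain ⟨t1, t2, t3, t4, t5⟩ := (hT _ _ _ _).mp (z.pr_spec T)
    obtain ⟨r1, r2, r3, r4, r5⟩ := (hT _ _ _ _).mp (z'.pr_spec T)
    have e1 : C.dev T z • C.p (z.pr T) = C.cu p z.u • C.p z.u := by
      unfold LC.dev
      rw [mul_smul, C.cs_p t3]
    have e2 : C.dev T z' • C.p (z'.pr T) = C.cu p z'.u • C.p z'.u := by
      unfold LC.dev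
      rw [mul_smul, C.cs_p r3]
    have hu : z.u = z'.u := by
      apply C.cu_cancel t2 r2
      rw [← e1, ← e2, h1, h2]
    have q1 := T.flipU _ _ _ _ (z.pr_spec T)
    have q2 := T.flipU _ _ _ _ (z'.pr_spec T)
    rw [← h1, ← hu] at q2
    exact Leaf.ext hu (T.unique _ _ _ _ _ q1 q2)
  obtain ⟨ρ, hρ, hρH⟩ := exists_hom cov (C.dev T) C.π (fun z => C.dev_loc h hc T hT z) hsep
    (x := p) ⟨Leaf.base g p, hb⟩
  let e := FundamentalGroup.fundamentalGroupMulEquivOfPathConnected (X := X) (x₀ := x) (x₁ := p)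
  refine ⟨ρ.comp e.toMonoidHom, hρ.comp e.injective, fun H hH α => hρH H (fun z => ?_) (e α)⟩
  obtain ⟨δ, hδ, h1⟩ := hH
  have h2 : Tendsto (Leaf.pr T : Leaf g p → X) (𝓝 z) (𝓝 (z.pr T)) := cov.continuous.tendsto z
  filter_upwards [h2 (Metric.ball_mem_nhds _ hδ)] with z' hz'
  apply h1
  rw [dist_comm]
  exact hz'

end Pool.Agent.N234.TG
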