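import Pool.Agent.N234.TG.Def
import Pool.Agent.N234.TG.Pi1
import Pool.Agent.W740.TC.Main
import Pool.Agent.H779R2.An.Periodic
import Pool.Agent.TH304.K289.J920
import Pool.Agent.TH289.K.Def

set_option autoImplicit false
set_option linter.unusedSectionVars false

open Filter Topology Set Metric
open scoped Manifold ContDiff Pointwise

namespace Pool.Agent.N234.TG

open Pool.Agent.H721R2 Pool.Agent.H789R2.AN Pool.Agent.H789R2.GP
open Pool.Agent.W740.TC (att_univ exists_sys_ge)
open Pool.Agent.TH289.K (GPS)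
open Pool.Agent.TH304.K289.J920 (gps_of_qs)

variable {G Y : Type*} [Group G] [TopologicalSpace G] [IsTopologicalGroup G]
  [TopologicalSpace Y] [T2Space Y] [LocallyCompactSpace Y] [MulAction G Y] [ContinuousSMul G Y]

section abs

variable {X E : Type*} [MetricSpace X] [CompactSpace X] [NormedAddCommGroup E]
  [InnerProductSpace ℝ E] [FiniteDimensional ℝ E]

/-- Abstract form. -/
theorem abs_main {E' : Type*} [NormedAddCommGroup E'] [NormedSpace ℝ E'] [ProperSpace E']
    [ChartedSpace E' X] [ConnectedSpace X] (S : HypSys X E) (C : TS S.g G Y) {f : X ≃ₜ X} {n : ℕ}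
    (hn : 1 ≤ n) (hf : S.g = iterHomeo f n) :
    (∀ U V : Set X, IsOpen U → U.Nonempty → IsOpen V → V.Nonempty →
      ∃ n : ℕ, (S.g^[n] '' U ∩ V).Nonempty) ∧ GPS f ∧ (∃ q : E' → X, IsCoveringMap q) ∧
      ∀ x : X, ∃ ρ : FundamentalGroup X x →* G, Function.Injective ρ ∧
        ∀ H : Subgroup G, (∃ δ > 0, ∀ x y, dist x y < δ → C.π x y ∈ H) → ∀ α, ρ α ∈ H := by
  obtain ⟨c, h⟩ := exists_LP S
  have hX : ULC X := ulc_of_charted (X := X) (E := E')
  obtain ⟨c₁, hc₁, T, hT⟩ := C.exists_QS hX h
  obtain ⟨q, hq, p, hp⟩ := S.exists_periodic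
  have : LocallyPathConnectedSpace X := ChartedSpace.locallyPathConnectedSpace E' X
  have : PathConnectedSpace X := pathConnectedSpace_iff_connectedSpace.mpr inferInstance
  refine ⟨fun U V hU hUn hV hVn =>
    transitive_of_unique h (att_univ h hc₁ T) U V hU hUn hV hVn, ?_,
    exists_covering h hc₁ T p q hq hp, fun x =>
    TS.exists_hol (E' := E') C h hc₁ T hT p q hq hp x⟩
  have key : ∀ (g : X ≃ₜ X) (C : TS g G Y) (_ : LP g c) (T : QS g c₁)
      (_ : ∀ a s u x, T.Q a s u x ↔ C.Qd a s u x), g = iterHomeo f n → GPS f := by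
    intro g C h T hT hg
    subst hg
    exact gps_of_qs hn h hc₁ T (fun a s u x hq => (hT _ _ _ _).mpr ((hT _ _ _ _).mp hq).map)
      (fun a s u x hq => (hT _ _ _ _).mpr ((hT _ _ _ _).mp hq).map_symm)
  exact key S.g C h T hT hf

/-- the structure for an iterate -/
theorem exists_TS {f : X ≃ₜ X} (D : TransStr f G Y) (hexp : Expanding D) (hinj : InjUnstable D)
    {g : X ≃ₜ X} {N : ℕ} (hN : 1 ≤ N) (hg : ∀ x, g x = f^[N] x) :
    ∃ C : TS g G Y, C.π = D.π := by
  obtain ⟨P, hP, hpP⟩ := D.bounded_p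
  obtain ⟨Q, hQ, hBQ, hπQ⟩ := D.bounded_π
  have h𝒱 := D.mem_nhds
  rw [nhdsSet_diagonal_eq_uniformity, Metric.mem_uniformity_dist] at h𝒱
  obtain ⟨ε, hε, h1⟩ := h𝒱
  obtain ⟨δ₁, hδ₁, h2⟩ := T1_unif f N hε
  obtain ⟨δ₂, hδ₂, h3⟩ := T1_unif f.symm N hε
  set η := min (min ε δ₁) (δ₂ / 2) with hη
  have hη0 : 0 < η := by positivity
  have l1 : η ≤ ε := (min_le_left _ _).trans (min_le_left _ _)
  have l2 : η ≤ δ₁ := (min_le_left _ _).trans (min_le_right _ _)
  have l3 : η ≤ δ₂ / 2 := min_le_right _ _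
  have hBn : ∀ (n : ℕ) (x : X), iterB f D.B n x ∈ Q ^ n := by
    intro n x
    induction n with
    | zero => rw [pow_zero]; exact rfl
    | succ n ih =>
      rw [pow_succ']
      exact Set.mul_mem_mul (hBQ _) ih
  have hadd : ∀ (m n : ℕ) (x : X), iterB f D.B (m + n) x =
      iterB f D.B m (f^[n] x) * iterB f D.B n x := by
    intro m n x
    induction m with
    | zero => rw [Nat.zero_add]; exact (one_mul _).symm
    | succ m ih =>
      rw [Nat.add_right_comm]
      show D.B (f^[m + n] x) * iterB f D.B (m + n) x =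
        D.B (f^[m] (f^[n] x)) * iterB f D.B m (f^[n] x) * iterB f D.B n x
      rw [ih, mul_assoc, Function.iterate_add_apply]
  have hQn : ∀ n : ℕ, IsCompact (Q ^ n) := by
    intro n
    induction n with
    | zero => rw [pow_zero]; exact isCompact_singleton
    | succ n ih => rw [pow_succ]; exact ih.mul hQ
  have hgn : ∀ (n : ℕ) (x : X), g^[n] x = f^[N * n] x := by
    intro n
    induction n with
    | zero => intro x; rfl
    | succ n ih =>
      intro x
      rw [Function.iterate_succ_apply, ih, hg, ← Function.iterate_add_apply, Nat.mul_succ]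
  have hgs : ∀ (n : ℕ) (x : X), g.symm^[n] x = f.symm^[N * n] x := by
    intro n
    induction n with
    | zero => intro x; rfl
    | succ n ih =>
      intro x
      have e2 : f.symm^[N] x = g.symm x := by
        apply g.injective
        rw [g.apply_symm_apply, hg, iterR]
      rw [Function.iterate_succ_apply, ih, ← e2, ← Function.iterate_add_apply, Nat.mul_succ]
  let L : LC g G :=
    { B := iterB f D.B N
      π := D.π
      η := η
      η_pos := hη0
      add := fun x y z hxy hyz hxz => D.cocycle x y z (h1 (hxy.trans_le l1)) (h1 (hyz.trans_le l1))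
        (h1 (hxz.trans_le l1))
      equi := fun x y hxy _ => by
        have key : ∀ j ≤ N, D.π (f^[j] x) (f^[j] y) * iterB f D.B j y =
            iterB f D.B j x * D.π x y := by
          intro j
          induction j with
          | zero => intro _; show D.π x y * 1 = 1 * D.π x y; rw [mul_one, one_mul]
          | succ j ih =>
            intro hj
            have a1 := h2 j (by omega) x y (hxy.trans_le l2)
            have a2 := h2 (j + 1) hj x y (hxy.trans_le l2)
            rw [Function.iterate_succ_apply', Function.iterate_succ_apply'] at a2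
            have a3 := D.map_f _ _ (h1 a1) (h1 a2)
            rw [Function.iterate_succ_apply', Function.iterate_succ_apply']
            show _ * (D.B (f^[j] y) * iterB f D.B j y) = D.B (f^[j] x) * iterB f D.B j x * _
            rw [← mul_assoc, a3, mul_assoc, ih (by omega), mul_assoc]
        rw [hg, hg]
        exact key N le_rfl }
  have hLB : ∀ (n : ℕ) (x : X), L.Bn n x = iterB f D.B (N * n) x := by
    intro n x
    induction n with
    | zero => rfl
    | succ n ih =>
      rw [LC.Bn_succ, ih, hgn, Nat.mul_succ, Nat.add_comm (N * n) N, hadd]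
  refine ⟨{ toLC := L
            p := D.p
            P := P
            hP := hP
            hp := hpP
            Q := Q ^ N ∪ Q
            hQ := (hQn N).union hQ
            hB := fun x => Or.inl (hBn N x)
            hBp := fun x => ?_
            hπ := fun x y hxy => Or.inr (hπQ x y (h1 (hxy.trans_le l1)))
            small := fun O hO => ?_
            inj := fun x y hxy h0 => ?_
            expand := fun K hK hKd L' hL' => ?_ }, rfl⟩
  · have key : ∀ j, iterB f D.B j x • D.p x = D.p (f^[j] x) := by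
      intro j
      induction j with
      | zero => exact one_smul _ _
      | succ j ih =>
        show (D.B (f^[j] x) * iterB f D.B j x) • D.p x = _
        rw [mul_smul, ih, D.map_p, Function.iterate_succ_apply']
    rw [hg]
    exact key N
  · have h4 := D.continuous O hO
    rw [nhdsSet_diagonal_eq_uniformity, Metric.mem_uniformity_dist] at h4
    obtain ⟨δ, hδ, h5⟩ := h4
    exact ⟨δ, hδ, fun x y hxy => h5 hxy⟩
  · apply hinj x y _ h0
    intro n
    have hj : n = n % N + N * (n / N) := (Nat.mod_add_div n N).symm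
    rw [hj, Function.iterate_add_apply, Function.iterate_add_apply, ← hgs, ← hgs]
    apply h1
    refine h3 _ (Nat.mod_lt _ (by omega)).le _ _ ?_
    have h6 : dist (g.symm^[n / N] x) (g.symm^[n / N] y) ≤ η := hxy (n / N)
    linarith
  · obtain ⟨n₀, hn₀⟩ := hexp K hK hKd L' hL'
    refine ⟨n₀, fun n hn x v hv => ?_⟩
    rw [hLB]
    exact hn₀ (N * n) (hn.trans (Nat.le_mul_of_pos_left n (by omega))) x v hv

end abs

section manifold

variable {E : Type*} [NormedAddCommGroup E] [NormedSpace ℝ E] [FiniteDimensional ℝ E]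
  {M : Type*} [TopologicalSpace M] [T2Space M] [CompactSpace M] [ConnectedSpace M]
  [ChartedSpace E M] [IsManifold 𝓘(ℝ, E) ∞ M]

/-- The main theorem. -/
theorem man_main (f : Diffeomorph 𝓘(ℝ, E) 𝓘(ℝ, E) M M 1)
    (Es Eu : ∀ x : M, Submodule ℝ (TangentSpace 𝓘(ℝ, E) x)) (hA : IsAnosov f Es Eu)
    (D : TransStr f.toHomeomorph G Y) (hexp : Expanding D) (hinj : InjUnstable D) :
    TopTransitive f ∧ Dense (Function.periodicPts f) ∧ GPS f.toHomeomorph ∧
      (∃ q : E → M, IsCoveringMap q ∧ Function.Surjective q) ∧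
      ∀ x : M, ∃ ρ : FundamentalGroup M x →* G, Function.Injective ρ ∧
        ∀ H : Subgroup G, (∀ y z, (y, z) ∈ D.𝒱 → D.π y z ∈ H) → ∀ α, ρ α ∈ H := by
  obtain ⟨m, ee, hee, hemb, hinj'⟩ := exists_embedding_euclidean_of_compact (I := 𝓘(ℝ, E)) (M := M)
  let _ : MetricSpace M := hemb.isEmbedding.comapMetricSpace ee
  have hiso : ∀ x y : M, dist x y = ‖ee x - ee y‖ := fun x y => dist_eq_norm (ee x) (ee y)
  have he1 : ContMDiff 𝓘(ℝ, E) (𝓡 m) 1 ee := hee.of_le (by simp)
  obtain ⟨n, S, hn1, hg, hSe, hVs, hVu⟩ := exists_sys_ge hiso he1 hinj' f Es Eu hA 1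
  have hgi : ∀ x, S.g x = (f.toHomeomorph)^[n] x := fun x => by
    rw [hg]; rfl
  have : ProperSpace E := FiniteDimensional.proper_real E
  obtain ⟨C, hCD⟩ := exists_TS D hexp hinj hn1 hgi
  obtain ⟨h1, h2, ⟨q₀, hq₀⟩, h3⟩ := abs_main (E' := E) S C hn1 hg
  refine ⟨fun U W hU hUn hW hWn => ?_, fun x => ?_, h2, ⟨q₀, hq₀, covering_surj hq₀⟩,
    fun x => ?_⟩
  rotate_left
  · rw [Metric.mem_closure_iff]
    intro ε hε
    obtain ⟨y, N, hN1, hy, hd⟩ := Pool.Agent.H779R2.An.periodic_dense S h1 x ε hε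
    refine ⟨y, ⟨n * N, Nat.mul_pos hn1 hN1, ?_⟩, by rwa [dist_comm]⟩
    rw [Function.IsPeriodicPt, Function.IsFixedPt]
    have h3 : S.g^[N] = f^[n * N] := by
      rw [Function.iterate_mul]
      congr 1
      funext x
      exact hgi x
    rw [← h3]
    exact hy
  · obtain ⟨ρ, hρ1, hρ2⟩ := h3 x
    refine ⟨ρ, hρ1, fun H hH => hρ2 H ?_⟩
    have h𝒱 := D.mem_nhds
    rw [nhdsSet_diagonal_eq_uniformity, Metric.mem_uniformity_dist] at h𝒱
    obtain ⟨ε, hε, h4⟩ := h𝒱
    refine ⟨ε, hε, fun y z hyz => ?_⟩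
    rw [hCD]
    exact hH _ _ (h4 hyz)
  obtain ⟨q, hq⟩ := h1 U W hU hUn hW hWn
  refine ⟨n * q, ?_⟩
  have h3 : S.g^[q] = f^[n * q] := by
    rw [Function.iterate_mul]
    congr 1
    funext x
    exact hgi x
  rw [h3] at hq
  exact hq

end manifold

end Pool.Agent.N234.TG
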