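import Mathlib

set_option autoImplicit false

open Filter Topology Set

namespace Pool.Agent.N234.TG

/-- A transverse `(G, Y)`-structure for the homeomorphism `f` of `M`, invariant under `f`, given by
one chart at every point of `M`.  For `(x, y)` in the neighbourhood `𝒱` of the diagonal,
`π x y ∈ G` is the change of charts from the chart at `y` to the chart at `x`, and `p x ∈ Y` is the
value of the chart at `x` at the point `x` itself, so that the chart at `x` is the map
`y ↦ π x y • p y` (defined for `y` near `x`); `B x ∈ G` is the map `f` read in the charts at `x` and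
at `f x`.  The values of `p`, `π` (on `𝒱`) and `B` lie in compact sets. -/
structure TransStr {M : Type*} [TopologicalSpace M] (f : M ≃ₜ M) (G Y : Type*) [Group G]
    [TopologicalSpace G] [TopologicalSpace Y] [MulAction G Y] where
  /-- the value of the chart at `x` at the point `x` -/
  p : M → Y
  /-- the changes of charts -/
  π : M → M → G
  /-- the map `f` in the charts -/
  B : M → G
  /-- a neighbourhood of the diagonal -/
  𝒱 : Set (M × M)
  mem_nhds : 𝒱 ∈ 𝓝ˢ (diagonal M)
  bounded_p : ∃ P : Set Y, IsCompact P ∧ ∀ x, p x ∈ P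
  bounded_π : ∃ Q : Set G, IsCompact Q ∧ (∀ x, B x ∈ Q) ∧ ∀ x y, (x, y) ∈ 𝒱 → π x y ∈ Q
  /-- the changes of charts form a cocycle -/
  cocycle : ∀ x y z, (x, y) ∈ 𝒱 → (y, z) ∈ 𝒱 → (x, z) ∈ 𝒱 → π x z = π x y * π y z
  /-- the charts are uniformly continuous: `π x y • p y` is close to `p x` when `y` is close
  to `x` -/
  continuous : ∀ O ∈ 𝓝ˢ (diagonal Y),
    {q : M × M | (p q.1, π q.1 q.2 • p q.2) ∈ O} ∈ 𝓝ˢ (diagonal M)
  /-- `f` preserves the structure -/
  map_f : ∀ x y, (x, y) ∈ 𝒱 → (f x, f y) ∈ 𝒱 → π (f x) (f y) * B y = B x * π x y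
  map_p : ∀ x, B x • p x = p (f x)

/-- The product `B (f^(n-1) x) ⋯ B (f x) B x`: the iterate `fⁿ` in the charts at `x` and `fⁿ x`. -/
def iterB {M G : Type*} [Group G] (f : M → M) (B : M → G) : ℕ → M → G
  | 0, _ => 1
  | n + 1, x => B (f^[n] x) * iterB f B n x

/-- `f` is expanding in the transverse structure: a point `v ≠ p x` leaves every compact subset of
`Y` under the iterates of `f` read in the charts, uniformly in `x` and for `(p x, v)` in a compact
set off the diagonal. -/
def Expanding {M : Type*} [TopologicalSpace M] {f : M ≃ₜ M} {G Y : Type*} [Group G]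
    [TopologicalSpace G] [TopologicalSpace Y] [MulAction G Y] (D : TransStr f G Y) : Prop :=
  ∀ K : Set (Y × Y), IsCompact K → Disjoint K (diagonal Y) → ∀ L : Set Y, IsCompact L →
    ∃ n₀ : ℕ, ∀ n ≥ n₀, ∀ x v, (D.p x, v) ∈ K → iterB f D.B n x • v ∉ L

/-- The charts are injective on the local unstable sets. -/
def InjUnstable {M : Type*} [TopologicalSpace M] {f : M ≃ₜ M} {G Y : Type*} [Group G]
    [TopologicalSpace G] [TopologicalSpace Y] [MulAction G Y] (D : TransStr f G Y) : Prop :=
  ∀ x y, (∀ n : ℕ, (f.symm^[n] x, f.symm^[n] y) ∈ D.𝒱) → D.π x y • D.p y = D.p x → x = y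

end Pool.Agent.N234.TG
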