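import Pool.Agent.H789R2.GP.Br

set_option autoImplicit false

open Filter Topology Set Metric unitInterval

namespace Pool.Agent.N234.TG

open Pool.Agent.H789R2.AN Pool.Agent.H789R2.GP

variable {X : Type*} [MetricSpace X]

/-- A local cocycle `π` with values in a group, with `π (g x) (g y) B y = B x π x y`. -/
structure LC (g : X ≃ₜ X) (G : Type*) [Group G] where
  B : X → G
  π : X → X → G
  η : ℝ
  η_pos : 0 < η
  add : ∀ x y z, dist x y < η → dist y z < η → dist x z < η → π x z = π x y * π y z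
  equi : ∀ x y, dist x y < η → dist (g x) (g y) < η → π (g x) (g y) * B y = B x * π x y

theorem ws_g {g : X ≃ₜ X} {x y : X} (h : WS g.symm x y) : WS g.symm (g x) (g y) := by
  rw [← WS.iter 1]
  simpa using h

theorem ws_iter {g : X ≃ₜ X} {x y : X} (h : WS g.symm x y) (n : ℕ) :
    WS g.symm (g^[n] x) (g^[n] y) := by
  induction n with
  | zero => exact h
  | succ n ih =>
    rw [Function.iterate_succ_apply', Function.iterate_succ_apply']
    exact ws_g ih

theorem ws_sg {g : X ≃ₜ X} {x y : X} (h : WS g x y) : WS g (g x) (g y) := by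
  have := (WS.iter (g := g) 1).mpr h
  simpa using this

namespace LC

variable {g : X ≃ₜ X} {G : Type*} [Group G] (C : LC g G)

/-- the cocycle of the inverse map -/
def swap : LC g.symm G where
  B x := (C.B (g.symm x))⁻¹
  π := C.π
  η := C.η
  η_pos := C.η_pos
  add := C.add
  equi x y h h' := by
    have := C.equi (g.symm x) (g.symm y) h' (by rwa [g.apply_symm_apply, g.apply_symm_apply])
    rw [g.apply_symm_apply, g.apply_symm_apply] at this
    rw [eq_inv_mul_iff_mul_eq, ← mul_assoc, ← this, mul_inv_cancel_right]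

/-- the products of `B` along orbits -/
def Bn : ℕ → X → G
  | 0, _ => 1
  | n + 1, x => C.B (g^[n] x) * Bn n x

@[simp] theorem Bn_zero (x : X) : C.Bn 0 x = 1 := rfl

theorem Bn_succ (n : ℕ) (x : X) : C.Bn (n + 1) x = C.B (g^[n] x) * C.Bn n x := rfl

theorem Bn_succ' (n : ℕ) (x : X) : C.Bn (n + 1) x = C.Bn n (g x) * C.B x := by
  induction n with
  | zero => simp [Bn_succ]
  | succ n ih =>
    rw [Bn_succ, ih, Bn_succ, mul_assoc, Function.iterate_succ_apply]

theorem Bn_add (m n : ℕ) (x : X) : C.Bn (m + n) x = C.Bn m (g^[n] x) * C.Bn n x := by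
  induction m with
  | zero => simp
  | succ m ih =>
    rw [Nat.add_right_comm, Bn_succ, ih, Bn_succ, mul_assoc, Function.iterate_add_apply]

theorem self (x : X) : C.π x x = 1 := by
  have h := C.add x x x (by rw [dist_self]; exact C.η_pos) (by rw [dist_self]; exact C.η_pos)
    (by rw [dist_self]; exact C.η_pos)
  exact mul_eq_left.mp h.symm

theorem inv {x y : X} (h : dist x y < C.η) : C.π y x = (C.π x y)⁻¹ := by
  have h1 := C.add x y x h (by rwa [dist_comm]) (by rw [dist_self]; exact C.η_pos)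
  rw [C.self] at h1
  exact (inv_eq_of_mul_eq_one_right h1.symm).symm

/-- backward iterates eventually stay close -/
def Fr (x y : X) (n : ℕ) : Prop := ∀ k ≥ n, dist (g.symm^[k] x) (g.symm^[k] y) < C.η

theorem Fr.of_ws {x y : X} (h : WS g.symm x y) : ∃ n, C.Fr x y n := h.eventually_lt C.η_pos

variable {C} in
theorem Fr.mono {x y : X} {n m : ℕ} (h : C.Fr x y n) (hm : n ≤ m) : C.Fr x y m :=
  fun k hk => h k (hm.trans hk)

/-- the transport through the point `g⁻ⁿ` -/
def val (n : ℕ) (x y : X) : G :=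
  C.Bn n (g.symm^[n] x) * C.π (g.symm^[n] x) (g.symm^[n] y) * (C.Bn n (g.symm^[n] y))⁻¹

theorem val_succ {x y : X} {m : ℕ} (h1 : dist (g.symm^[m] x) (g.symm^[m] y) < C.η)
    (h2 : dist (g.symm^[m + 1] x) (g.symm^[m + 1] y) < C.η) :
    C.val (m + 1) x y = C.val m x y := by
  have e : ∀ z : X, g (g.symm^[m + 1] z) = g.symm^[m] z := fun z => by
    rw [Function.iterate_succ_apply' g.symm, g.apply_symm_apply]
  have h3 := C.equi _ _ h2 (by rw [e, e]; exact h1)
  unfold val
  rw [C.Bn_succ', C.Bn_succ', mul_inv_rev]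
  rw [e, e] at h3
  rw [e, e]
  have h4 : C.Bn m (g.symm^[m] x) * C.B (g.symm^[m + 1] x) *
      C.π (g.symm^[m + 1] x) (g.symm^[m + 1] y) * ((C.B (g.symm^[m + 1] y))⁻¹ *
      (C.Bn m (g.symm^[m] y))⁻¹) =
      C.Bn m (g.symm^[m] x) * (C.B (g.symm^[m + 1] x) *
      C.π (g.symm^[m + 1] x) (g.symm^[m + 1] y)) * (C.B (g.symm^[m + 1] y))⁻¹ *
      (C.Bn m (g.symm^[m] y))⁻¹ := by
    simp only [mul_assoc]
  rw [h4, ← h3, ← mul_assoc, mul_inv_cancel_right]

theorem val_step {x y : X} {m : ℕ} (h : C.Fr x y m) (j : ℕ) :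
    C.val (m + j) x y = C.val m x y := by
  induction j with
  | zero => rfl
  | succ j ih =>
    rw [← ih]
    exact C.val_succ (h (m + j) (Nat.le_add_right m j))
      (h (m + j + 1) ((Nat.le_add_right m j).trans (Nat.le_succ _)))

open Classical in
/-- The cocycle along unstable leaves. -/
noncomputable def cu (x y : X) : G :=
  if h : ∃ n, C.Fr x y n then C.val h.choose x y else 1

theorem cu_eq {x y : X} {n : ℕ} (h : C.Fr x y n) : C.cu x y = C.val n x y := by
  have h0 : ∃ n, C.Fr x y n := ⟨n, h⟩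
  rw [cu, dif_pos h0]
  have h1 := h0.choose_spec
  set m := h0.choose
  rcases le_total m n with hmn | hmn
  · obtain ⟨j, rfl⟩ := Nat.exists_eq_add_of_le hmn
    exact (C.val_step h1 j).symm
  · obtain ⟨j, hj⟩ := Nat.exists_eq_add_of_le hmn
    rw [hj]
    exact C.val_step h j

theorem cu_eq_π {x y : X} {ε : ℝ} (hε : ε < C.η) (h : SR g.symm ε x y) :
    C.cu x y = C.π x y := by
  rw [C.cu_eq (n := 0) fun k _ => (h k).trans_lt hε]
  simp [val]

theorem cu_mul {x y z : X} (h1 : WS g.symm x y) (h2 : WS g.symm y z) :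
    C.cu x z = C.cu x y * C.cu y z := by
  obtain ⟨n1, hn1⟩ := Fr.of_ws C h1
  obtain ⟨n2, hn2⟩ := Fr.of_ws C h2
  obtain ⟨n3, hn3⟩ := Fr.of_ws C (h1.trans h2)
  set n := max n1 (max n2 n3)
  have a1 : C.Fr x y n := hn1.mono (le_max_left _ _)
  have a2 : C.Fr y z n := hn2.mono ((le_max_left _ _).trans (le_max_right _ _))
  have a3 : C.Fr x z n := hn3.mono ((le_max_right _ _).trans (le_max_right _ _))
  rw [C.cu_eq a1, C.cu_eq a2, C.cu_eq a3]
  unfold val
  rw [C.add _ _ _ (a1 n le_rfl) (a2 n le_rfl) (a3 n le_rfl)]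
  simp only [mul_assoc, inv_mul_cancel_left]

theorem cu_self (x : X) : C.cu x x = 1 := by
  have h := C.cu_mul (WS.refl g.symm x) (WS.refl g.symm x)
  exact mul_eq_left.mp h.symm

theorem cu_inv {x y : X} (h : WS g.symm x y) : C.cu y x = (C.cu x y)⁻¹ := by
  have h1 := C.cu_mul h h.symm'
  rw [C.cu_self] at h1
  exact (inv_eq_of_mul_eq_one_right h1.symm).symm

theorem cu_g {x y : X} (h : WS g.symm x y) :
    C.cu (g x) (g y) = C.B x * C.cu x y * (C.B y)⁻¹ := by
  obtain ⟨n1, hn1⟩ := Fr.of_ws C h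
  have h1 : ∀ (k : ℕ) (z : X), g.symm^[k + 1] (g z) = g.symm^[k] z := fun k z => by
    rw [Function.iterate_succ_apply, g.symm_apply_apply]
  have h2 : C.Fr (g x) (g y) (n1 + 1) := by
    intro k hk
    obtain ⟨j, rfl⟩ := Nat.exists_eq_add_of_le hk
    have := hn1 (n1 + j) (by omega)
    rw [show n1 + 1 + j = (n1 + j) + 1 by omega, h1, h1]
    exact this
  rw [C.cu_eq hn1, C.cu_eq h2]
  unfold val
  rw [h1, h1, C.Bn_succ, C.Bn_succ, iterR, iterR, mul_inv_rev]
  simp only [mul_assoc]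

theorem cu_iter {x y : X} (h : WS g.symm x y) (n : ℕ) :
    C.cu (g^[n] x) (g^[n] y) = C.Bn n x * C.cu x y * (C.Bn n y)⁻¹ := by
  induction n with
  | zero => simp
  | succ n ih =>
    rw [Function.iterate_succ_apply', Function.iterate_succ_apply', C.cu_g (ws_iter h n), ih,
      C.Bn_succ, C.Bn_succ, mul_inv_rev]
    simp only [mul_assoc]

/-- the cocycle along stable leaves -/
noncomputable def cs (x y : X) : G := C.swap.cu x y

theorem cs_mul {x y z : X} (h1 : WS g x y) (h2 : WS g y z) : C.cs x z = C.cs x y * C.cs y z :=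
  C.swap.cu_mul h1 h2

theorem cs_self (x : X) : C.cs x x = 1 := C.swap.cu_self x

theorem cs_inv {x y : X} (h : WS g x y) : C.cs y x = (C.cs x y)⁻¹ := C.swap.cu_inv h

theorem cs_eq_π {x y : X} {ε : ℝ} (hε : ε < C.η) (h : SR g ε x y) : C.cs x y = C.π x y :=
  C.swap.cu_eq_π (ε := ε) hε h

theorem cs_g {x y : X} (h : WS g x y) : C.cs (g x) (g y) = C.B x * C.cs x y * (C.B y)⁻¹ := by
  have h0 : WS g.symm.symm (g x) (g y) := ws_sg h
  have h1 := C.swap.cu_g h0
  have h2 : C.swap.cu (g.symm (g x)) (g.symm (g y)) = C.cs x y := by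
    rw [g.symm_apply_apply, g.symm_apply_apply]
    rfl
  have h3 : ∀ z, C.swap.B (g z) = (C.B z)⁻¹ := fun z => by
    show (C.B (g.symm (g z)))⁻¹ = _
    rw [g.symm_apply_apply]
  rw [h2, h3, h3, inv_inv] at h1
  rw [h1]
  show C.cs (g x) (g y) = _
  rw [← mul_assoc, ← mul_assoc, mul_inv_cancel, one_mul, mul_inv_cancel_right]
  rfl

theorem cs_iter {x y : X} (h : WS g x y) (n : ℕ) :
    C.cs (g^[n] x) (g^[n] y) = C.Bn n x * C.cs x y * (C.Bn n y)⁻¹ := by
  induction n with
  | zero => simp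
  | succ n ih =>
    rw [Function.iterate_succ_apply', Function.iterate_succ_apply',
      C.cs_g ((WS.iter n).mpr h), ih, C.Bn_succ, C.Bn_succ, mul_inv_rev]
    simp only [mul_assoc]

theorem cs_val {x y : X} (h : WS g x y) (n : ℕ)
    (hn : ∀ k ≥ n, dist (g^[k] x) (g^[k] y) < C.η) :
    C.cs x y = (C.Bn n x)⁻¹ * C.π (g^[n] x) (g^[n] y) * C.Bn n y := by
  have h1 := C.cs_iter h n
  have h2 : C.cs (g^[n] x) (g^[n] y) = C.π (g^[n] x) (g^[n] y) := by
    have h3 : C.swap.Fr (g^[n] x) (g^[n] y) 0 := by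
      intro k _
      show dist (g^[k] (g^[n] x)) (g^[k] (g^[n] y)) < C.η
      rw [← Function.iterate_add_apply, ← Function.iterate_add_apply]
      exact hn _ (by omega)
    have h4 := C.swap.cu_eq h3
    show C.swap.cu _ _ = _
    rw [h4]
    simp [val, swap]
  rw [h2] at h1
  rw [h1]
  simp only [mul_assoc, inv_mul_cancel, mul_one, inv_mul_cancel_left]

end LC

end Pool.Agent.N234.TG
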