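import Pool.Agent.N234.TG.Tra
import Pool.Agent.W740.TC.QSc
import Pool.Agent.H789R2.GP.QSx

set_option autoImplicit false
set_option linter.unusedSectionVars false

open Filter Topology Set Metric unitInterval

namespace Pool.Agent.N234.TG

open Pool.Agent.H789R2.AN Pool.Agent.H789R2.GP
open Pool.Agent.W740.TC (SR_of_dist)

variable {X : Type*} [MetricSpace X]

namespace LC

variable {g : X ≃ₜ X} {G : Type*} [Group G] (C : LC g G)

/-- the two transports around the quadrilateral agree -/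
def Qd (a s u x : X) : Prop :=
  WS g a s ∧ WS g.symm a u ∧ WS g u x ∧ WS g.symm s x ∧
    C.cs a s * C.cu s x = C.cu a u * C.cs u x

variable {C} in
theorem Qd.map {a s u x : X} (h : C.Qd a s u x) : C.Qd (g a) (g s) (g u) (g x) := by
  obtain ⟨h1, h2, h3, h4, h5⟩ := h
  refine ⟨ws_sg h1, ws_g h2, ws_sg h3, ws_g h4, ?_⟩
  rw [C.cs_g h1, C.cu_g h4, C.cu_g h2, C.cs_g h3]
  have e1 : C.B a * C.cs a s * (C.B s)⁻¹ * (C.B s * C.cu s x * (C.B x)⁻¹) =
      C.B a * (C.cs a s * C.cu s x) * (C.B x)⁻¹ := by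
    simp only [mul_assoc, inv_mul_cancel_left]
  have e2 : C.B a * C.cu a u * (C.B u)⁻¹ * (C.B u * C.cs u x * (C.B x)⁻¹) =
      C.B a * (C.cu a u * C.cs u x) * (C.B x)⁻¹ := by
    simp only [mul_assoc, inv_mul_cancel_left]
  rw [e1, e2, h5]

variable {C} in
theorem Qd.iter {a s u x : X} (h : C.Qd a s u x) (n : ℕ) :
    C.Qd (g^[n] a) (g^[n] s) (g^[n] u) (g^[n] x) := by
  induction n with
  | zero => exact h
  | succ n ih =>
    simp only [Function.iterate_succ_apply']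
    exact ih.map

variable {C} in
theorem Qd.map_symm {a s u x : X} (h : C.Qd a s u x) :
    C.Qd (g.symm a) (g.symm s) (g.symm u) (g.symm x) := by
  obtain ⟨h1, h2, h3, h4, h5⟩ := h
  have hs : ∀ {x y : X}, WS g x y → WS g (g.symm x) (g.symm y) := fun {x y} hxy =>
    ws_g (g := g.symm) hxy
  have hu : ∀ {x y : X}, WS g.symm x y → WS g.symm (g.symm x) (g.symm y) := fun {x y} hxy =>
    ws_sg (g := g.symm) hxy
  refine ⟨hs h1, hu h2, hs h3, hu h4, ?_⟩
  have e1 := C.cs_g (hs h1)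
  have e2 := C.cu_g (hu h4)
  have e3 := C.cu_g (hu h2)
  have e4 := C.cs_g (hs h3)
  simp only [Homeomorph.apply_symm_apply] at e1 e2 e3 e4
  rw [e1, e2, e3, e4] at h5
  simp only [mul_assoc, inv_mul_cancel_left] at h5
  have h6 := mul_left_cancel h5
  rw [← mul_assoc, ← mul_assoc, mul_left_inj] at h6
  exact h6

variable {C} in
theorem Qd.compU {a s u x u' x' : X} (h : C.Qd a s u x) (h' : C.Qd u x u' x') :
    C.Qd a s u' x' := by
  obtain ⟨h1, h2, h3, h4, h5⟩ := h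
  obtain ⟨-, k2, k3, k4, k5⟩ := h'
  refine ⟨h1, h2.trans k2, k3, h4.trans k4, ?_⟩
  rw [C.cu_mul h4 k4, C.cu_mul h2 k2, ← mul_assoc, h5, mul_assoc, k5, mul_assoc]

variable {C} in
theorem Qd.compS {a s u x s' x' : X} (h : C.Qd a s u x) (h' : C.Qd s s' x x') :
    C.Qd a s' u x' := by
  obtain ⟨h1, h2, h3, h4, h5⟩ := h
  obtain ⟨k1, -, k3, k4, k5⟩ := h'
  refine ⟨h1.trans k1, h2, h3.trans k3, k4, ?_⟩
  rw [C.cs_mul h1 k1, C.cs_mul h3 k3, mul_assoc, k5, ← mul_assoc, h5, mul_assoc]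

variable {C} in
theorem Qd.flipU {a s u x : X} (h : C.Qd a s u x) : C.Qd u x a s := by
  obtain ⟨h1, h2, h3, h4, h5⟩ := h
  refine ⟨h3, h2.symm', h1, h4.symm', ?_⟩
  rw [C.cu_inv h4, C.cu_inv h2, eq_inv_mul_iff_mul_eq, ← mul_assoc, ← h5, mul_inv_cancel_right]

variable {C} in
theorem Qd.flipS {a s u x : X} (h : C.Qd a s u x) : C.Qd s a x u := by
  obtain ⟨h1, h2, h3, h4, h5⟩ := h
  refine ⟨h1.symm', h4, h3.symm', h2, ?_⟩
  rw [C.cs_inv h1, C.cs_inv h3, inv_mul_eq_iff_eq_mul, ← mul_assoc, h5, mul_inv_cancel_right]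

end LC

namespace TS

variable {g : X ≃ₜ X} {G Y : Type*} [Group G] [TopologicalSpace G] [IsTopologicalGroup G]
  [TopologicalSpace Y] [T2Space Y] [LocallyCompactSpace Y] [MulAction G Y] [ContinuousSMul G Y]
  (C : TS g G Y)

/-- small quadrilaterals -/
theorem tiny {c : ℝ} (h : LP g c) : ∃ ε > 0, ε < C.η ∧ ε ≤ c ∧ ∀ a s u x, SR g ε a s →
    SR g.symm ε a u → SR g ε u x → SR g.symm ε s x → C.Qd a s u x := by
  have hη := C.η_pos
  have hc := h.c_pos
  have m1 : min (C.η / 4) c ≤ C.η / 4 := min_le_left _ _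
  have m2 : min (C.η / 4) c ≤ c := min_le_right _ _
  refine ⟨min (C.η / 4) c, by positivity, by linarith, m2, fun a s u x h1 h2 h3 h4 => ?_⟩
  refine ⟨WS.of_SR (h.cS _ _ (h1.mono m2)), WS.of_SR (h.cU _ _ (h2.mono m2)),
    WS.of_SR (h.cS _ _ (h3.mono m2)), WS.of_SR (h.cU _ _ (h4.mono m2)), ?_⟩
  have d1 : dist a s ≤ C.η / 4 := (h1 0).trans m1
  have d2 : dist a u ≤ C.η / 4 := (h2 0).trans m1
  have d3 : dist u x ≤ C.η / 4 := (h3 0).trans m1
  have d4 : dist s x ≤ C.η / 4 := (h4 0).trans m1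
  have d5 : dist a x < C.η := by
    have := dist_triangle a u x
    linarith
  have e0 : C.η / 4 < C.η := by linarith
  rw [C.cs_eq_π e0 (h1.mono m1), C.cu_eq_π e0 (h4.mono m1), C.cu_eq_π e0 (h2.mono m1),
    C.cs_eq_π e0 (h3.mono m1), ← C.add a s x (by linarith) (by linarith) d5,
    ← C.add a u x (by linarith) (by linarith) d5]

/-- (L) small stable displacements slide along bounded unstable paths -/
theorem local_slide [CompactSpace X] {c : ℝ} (h : LP g c) : ∃ c₁ > 0, c₁ ≤ c ∧ c₁ < C.η ∧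
    ∀ j : ℕ, ∀ ε > 0, ∃ η > 0, ∀ a s u, SR g η a s →
      SR g.symm c₁ (g.symm^[j] a) (g.symm^[j] u) → ∃ x, C.Qd a s u x ∧ SR g ε u x := by
  obtain ⟨br, δ, hδ, hbr, hsmall, huniq, hunif⟩ := exists_br h
  obtain ⟨ε₀, hε₀, hε₀η, hε₀c, htiny⟩ := C.tiny h
  have hη := C.η_pos
  have hc := h.c_pos
  obtain ⟨θ, hθ, hθ2⟩ := hsmall ε₀ hε₀
  set c₁ := min (min (δ / 2) (θ / 2)) (min (c / 3) ε₀) with hc₁
  have hc₁0 : 0 < c₁ := by positivity
  have b1 : c₁ ≤ δ / 2 := (min_le_left _ _).trans (min_le_left _ _)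
  have b2 : c₁ ≤ θ / 2 := (min_le_left _ _).trans (min_le_right _ _)
  have b3 : c₁ ≤ c / 3 := (min_le_right _ _).trans (min_le_left _ _)
  have b4 : c₁ ≤ ε₀ := (min_le_right _ _).trans (min_le_right _ _)
  refine ⟨c₁, hc₁0, by linarith, by linarith, fun j ε hε => ?_⟩
  obtain ⟨ε₂, hε₂, hcl⟩ := SR_of_dist h hε
  obtain ⟨η₂, hη₂, hun⟩ := hunif ε₂ hε₂
  set η' := min (min (η₂ / 2) ε₀) (min (δ / 4) (θ / 4)) with hη'
  have hη'0 : 0 < η' := by positivity
  have k1 : η' ≤ η₂ / 2 := (min_le_left _ _).trans (min_le_left _ _)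
  have k2 : η' ≤ ε₀ := (min_le_left _ _).trans (min_le_right _ _)
  have k3 : η' ≤ δ / 4 := (min_le_right _ _).trans (min_le_left _ _)
  have k4 : η' ≤ θ / 4 := (min_le_right _ _).trans (min_le_right _ _)
  have hcm : ∀ x, g.symm (g x) = g (g.symm x) := fun x => by
    rw [g.symm_apply_apply, g.apply_symm_apply]
  obtain ⟨η, hη0, hmap⟩ := uc_map_iter (g := g) (φ := g.symm) hcm j η' hη'0
  refine ⟨η, hη0, fun a s u has hau => ?_⟩
  have hq : SR g η' (g.symm^[j] a) (g.symm^[j] s) := hmap _ _ has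
  set a' := g.symm^[j] a with ha'
  set s' := g.symm^[j] s with hs'
  set u' := g.symm^[j] u with hu'
  have d1 : dist a' u' ≤ c₁ := hau 0
  have d2 : dist a' s' ≤ η' := hq 0
  have d3 : dist u' s' ≤ c₁ + η' := by
    have := dist_triangle_left u' s' a'
    linarith
  set z := br u' s' with hz
  obtain ⟨z1, z2⟩ := hbr u' s' (by linarith)
  obtain ⟨z3, z4⟩ := hθ2 u' s' (by linarith)
  have z5 : u' = br u' a' := huniq u' a' u' (by rw [dist_comm]; linarith)
    (fun k => by rw [dist_self]; positivity) (hau.mono b3)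
  have z6 : dist z u' < ε₂ := by
    have := hun u' u' s' a' (by linarith) (by rw [dist_comm]; linarith)
      (by rwa [dist_self]) (by rw [dist_comm]; linarith)
    rwa [← z5] at this
  have z7 : SR g ε u' z := hcl u' z (z1.mono (by linarith)) (by rwa [dist_comm])
  have hQ := (htiny a' s' u' z (hq.mono k2) (hau.mono b4) z3 z4).iter j
  rw [ha', hs', hu', iterR, iterR, iterR] at hQ
  refine ⟨g^[j] z, hQ, ?_⟩
  have z8 := z7.shift j
  rwa [hu', iterR] at z8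

/-- the stable transports along a stable path stay in a compact set -/
theorem cs_compact [CompactSpace X] {c : ℝ} (h : LP g c) (υ : C(I, SM g)) (a : X)
    (ha : ∀ t, WS g a (υ t).val) : ∃ Q' : Set G, IsCompact Q' ∧ ∀ t, C.cs a (υ t).val ∈ Q' := by
  have hη := C.η_pos
  have hc := h.c_pos
  have key : ∃ Q' : Set G, IsCompact Q' ∧ ∀ t ∈ (univ : Set I), C.cs a (υ t).val ∈ Q' := by
    refine isCompact_univ.induction_on (p := fun S : Set I =>
      ∃ Q' : Set G, IsCompact Q' ∧ ∀ t ∈ S, C.cs a (υ t).val ∈ Q') ?_ ?_ ?_ ?_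
    · exact ⟨∅, isCompact_empty, fun t ht => absurd ht (notMem_empty t)⟩
    · rintro S T hST ⟨Q', hQ', h1⟩
      exact ⟨Q', hQ', fun t ht => h1 t (hST ht)⟩
    · rintro S T ⟨Q', hQ', h1⟩ ⟨Q'', hQ'', h2⟩
      exact ⟨Q' ∪ Q'', hQ'.union hQ'', fun t ht => ht.imp (h1 t) (h2 t)⟩
    · intro t _
      have h0 : 0 < min (C.η / 2) c := lt_min (half_pos hη) hc
      have h1 : ∀ᶠ t' in 𝓝 t, dist (υ t') (υ t) < min (C.η / 2) c :=
        (Metric.tendsto_nhds.mp (υ.continuous.tendsto t)) _ h0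
      refine ⟨{t' | dist (υ t') (υ t) < min (C.η / 2) c}, mem_nhdsWithin_of_mem_nhds h1,
        (fun k => C.cs a (υ t).val * k) '' C.Q, C.hQ.image (continuous_const.mul continuous_id),
        fun t' ht' => ?_⟩
      rw [mem_ofPred_eq, dist_comm] at ht'
      have h2 : SR g (min (C.η / 2) c) (υ t).val (υ t').val := (SM.dist_le _ _ h0.le).mp ht'.le
      have h3 : WS g (υ t).val (υ t').val := WS.of_SR (h.cS _ _ (h2.mono (min_le_right _ _)))
      have h4 : C.cs (υ t).val (υ t').val = C.π (υ t).val (υ t').val :=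
        C.cs_eq_π (half_lt_self hη) (h2.mono (min_le_left _ _))
      refine ⟨C.cs (υ t).val (υ t').val, ?_, ?_⟩
      · rw [h4]
        exact C.hπ _ _ (((h2 0).trans (min_le_left _ _)).trans_lt (half_lt_self hη))
      · exact (C.cs_mul (ha t) h3).symm
  obtain ⟨Q', hQ', h1⟩ := key
  exact ⟨Q', hQ', fun t => h1 t (mem_univ t)⟩

/-- (K) stable displacements slide along unstable leaves -/
theorem slide [CompactSpace X] (hX : ULC X) {c : ℝ} (h : LP g c) {a s u : X} (has : WS g a s)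
    (hau : WS g.symm a u) : ∃ x, C.Qd a s u x := by
  have hc := h.c_pos
  obtain ⟨c₁, hc₁, hc₁c, hc₁η, hL⟩ := C.local_slide h
  obtain ⟨υ, hυ0, hυ1⟩ := leaf_conn h hX a s has
  have hws : ∀ t, WS g a (υ t).val := fun t => by
    have := WS_of_path h υ 0 t
    rwa [hυ0] at this
  obtain ⟨Q', hQ', hcs⟩ := C.cs_compact h υ a hws
  have hLc : IsCompact ((fun k : G => k⁻¹ • (C.cu a u • C.p u)) '' Q') :=
    hQ'.image (by fun_prop)
  obtain ⟨j, hj⟩ := C.level hc₁ hLc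
  have hback : ∀ t x, C.Qd a (υ t).val u x →
      SR g.symm c₁ (g.symm^[j] (υ t).val) (g.symm^[j] x) := by
    intro t x hQ
    apply hj _ _ hQ.2.2.2.1
    refine ⟨C.cs a (υ t).val, hcs t, ?_⟩
    show (C.cs a (υ t).val)⁻¹ • (C.cu a u • C.p u) = _
    rw [inv_smul_eq_iff, ← mul_smul, hQ.2.2.2.2, mul_smul, C.cs_p hQ.2.2.1]
  obtain ⟨η, hη, hη2⟩ := hL j c hc
  let R : I → Prop := fun t => ∃ x, C.Qd a (υ t).val u x
  have hstep : ∀ t t' : I, dist (υ t') (υ t) < η → R t → R t' := by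
    rintro t t' ht' ⟨x, h1⟩
    have h4 : SR g η (υ t).val (υ t').val := by
      rw [dist_comm] at ht'
      exact (SM.dist_le _ _ hη.le).mp ht'.le
    obtain ⟨x', k1, -⟩ := hη2 _ _ x h4 (hback t x h1)
    exact ⟨x', h1.compS k1⟩
  have hall : R 0 → R 1 :=
    PreconnectedSpace.induction₂' (fun t t' : I => R t → R t')
      (fun t => by
        have h1 : ∀ᶠ t' in 𝓝 t, dist (υ t') (υ t) < η :=
          (Metric.tendsto_nhds.mp (υ.continuous.tendsto t)) η hη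
        filter_upwards [h1] with t' ht'
        exact ⟨hstep t t' ht', hstep t' t (by rwa [dist_comm])⟩)
      ⟨fun _ _ _ h1 h2 h3 => h2 (h1 h3)⟩ 0 1
  obtain ⟨x, h1⟩ := hall ⟨u, by
    rw [hυ0]
    exact ⟨WS.refl _ _, hau, WS.refl _ _, hau, by rw [C.cs_self, C.cs_self, one_mul, mul_one]⟩⟩
  rw [hυ1] at h1
  exact ⟨x, h1⟩

/-- The quadrilateral structure defined by the cocycle. -/
theorem exists_QS [CompactSpace X] (hX : ULC X) {c : ℝ} (h : LP g c) :
    ∃ c₁ > 0, ∃ T : QS g c₁, ∀ a s u x, T.Q a s u x ↔ C.Qd a s u x := by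
  have hc := h.c_pos
  have hη := C.η_pos
  obtain ⟨c₁, hc₁, hc₁c, hc₁η, hL⟩ := C.local_slide h
  have huniq : ∀ a s u x x', C.Qd a s u x → C.Qd a s u x' → x = x' := by
    intro a s u x x' h1 h2
    apply C.cu_cancel h1.2.2.2.1 h2.2.2.2.1
    have e : ∀ y, C.Qd a s u y → C.cu s y • C.p y = (C.cs a s)⁻¹ • (C.cu a u • C.p u) := by
      intro y hy
      rw [eq_inv_smul_iff, ← mul_smul, hy.2.2.2.2, mul_smul, C.cs_p hy.2.2.1]
    rw [e x h1, e x' h2]
  refine ⟨c₁, hc₁, ⟨C.Qd, ?_, ?_, ?_, ?_, ?_, ?_, ?_, ?_, ?_, ?_, ?_⟩, fun a s u x => Iff.rfl⟩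
  · exact fun a s u has hau => C.slide hX h has hau
  · exact huniq
  · exact fun a s u x h1 => h1.2.2.1
  · exact fun a s u x h1 => h1.2.2.2.1
  · exact fun a s u x u' x' h1 h2 => h1.compU h2
  · exact fun a s u x s' x' h1 h2 => h1.compS h2
  · exact fun a s u x h1 => h1.flipU
  · exact fun a s u x h1 => h1.flipS
  · obtain ⟨ε, hε, -, -, h1⟩ := C.tiny h
    exact ⟨ε, hε, h1⟩
  · intro j ε hε
    obtain ⟨η, hη, h1⟩ := hL j ε hε
    refine ⟨η, hη, fun a s u x hQ has hau => ?_⟩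
    obtain ⟨x', k1, k2⟩ := h1 a s u has hau
    have : x' = x := huniq _ _ _ _ _ k1 hQ
    rwa [this] at k2
  · intro j ε hε
    obtain ⟨O, hO, h1⟩ := C.cu_small hε
    -- the transports are in a compact set
    let R : Set G := (fun q : G × G × G => q.1⁻¹ * q.2.1 * q.2.2) ''
      (C.Qn j ×ˢ (C.Q ×ˢ C.Qn j))
    have hR : IsCompact R :=
      IsCompact.image ((C.Qn_compact j).prod (C.hQ.prod (C.Qn_compact j))) (by fun_prop)
    obtain ⟨O', hO', hO2⟩ : ∃ O' ∈ 𝓝ˢ (diagonal Y), ∀ k ∈ R, ∀ b ∈ C.P, ∀ v, (b, v) ∈ O' →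
        (k⁻¹ • b, k⁻¹ • v) ∈ O := by
      obtain ⟨O₁, hO₁, hdO₁, hO₁O⟩ := mem_nhdsSet_iff_exists.mp hO
      let D : Set (Y × Y) := (fun y => (y, y)) '' C.P
      have hD : IsCompact D := C.hP.image (by fun_prop)
      have hcont : Continuous (fun q : G × (Y × Y) => (q.1⁻¹ • q.2.1, q.1⁻¹ • q.2.2)) := by
        fun_prop
      obtain ⟨W₁, W₂, hW₁, hW₂, hRW, hDW, hWW⟩ := generalized_tube_lemma hR hD
        (hO₁.preimage hcont) (by
          rintro ⟨k, ⟨a, b⟩⟩ ⟨-, ⟨y, -, hy⟩⟩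
          rw [Prod.mk.injEq] at hy
          apply hdO₁
          show k⁻¹ • a = k⁻¹ • b
          rw [← hy.1, ← hy.2])
      refine ⟨W₂ ∪ (C.Pᶜ ×ˢ univ), ?_, fun k hk b hb v hv => ?_⟩
      · refine (hW₂.union (C.hP.isClosed.isOpen_compl.prod isOpen_univ)).mem_nhdsSet.mpr ?_
        rintro ⟨a, b⟩ (hab : a = b)
        subst hab
        by_cases ha : a ∈ C.P
        · exact Or.inl (hDW ⟨a, ha, rfl⟩)
        · exact Or.inr ⟨ha, mem_univ _⟩
      · rcases hv with hv | hv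
        · have h3 : ((k, (b, v)) : G × (Y × Y)) ∈ W₁ ×ˢ W₂ := ⟨hRW hk, hv⟩
          exact hO₁O (hWW h3)
        · exact absurd hb hv.1
    obtain ⟨δ, hδ, -, h2⟩ := C.cu_lt hO'
    refine ⟨δ, hδ, fun a s u x hQ hau has => h1 s x hQ.2.2.2.1 ?_⟩
    have e1 : C.cu s x • C.p x = (C.cs a s)⁻¹ • (C.cu a u • C.p u) := by
      rw [eq_inv_smul_iff, ← mul_smul, hQ.2.2.2.2, mul_smul, C.cs_p hQ.2.2.1]
    rw [e1, ← C.cs_inv_p hQ.1]
    refine hO2 _ ⟨(C.Bn j a, C.π (g^[j] a) (g^[j] s), C.Bn j s), ⟨C.Bn_mem _ _, C.hπ _ _ ?_,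
      C.Bn_mem _ _⟩, ?_⟩ _ (C.hp _) _ (h2 a u hau)
    · exact (has 0).trans_lt hc₁η
    · refine (C.cs_val hQ.1 j fun k hk => ?_).symm
      obtain ⟨i, rfl⟩ := Nat.exists_eq_add_of_le hk
      have := has i
      rw [← Function.iterate_add_apply, ← Function.iterate_add_apply, Nat.add_comm i j] at this
      exact this.trans_lt hc₁η

end TS

end Pool.Agent.N234.TG
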