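import Pool.Agent.N234.TG.Coc
import Pool.Agent.W740.TC.Coc

set_option autoImplicit false
set_option linter.unusedSectionVars false

open Filter Topology Set Metric unitInterval
open scoped Pointwise

namespace Pool.Agent.N234.TG

open Pool.Agent.H789R2.AN Pool.Agent.H789R2.GP
open Pool.Agent.W740.TC.Coc (isClosed_SR)

variable {X : Type*} [MetricSpace X]

/-- A local cocycle with values in a group acting on a space `Y`, with positions `p x ∈ Y`; the
products of `B` expand, and the cocycle is locally injective along unstable sets. -/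
structure TS (g : X ≃ₜ X) (G Y : Type*) [Group G] [TopologicalSpace G] [TopologicalSpace Y]
    [MulAction G Y] extends LC g G where
  p : X → Y
  P : Set Y
  hP : IsCompact P
  hp : ∀ x, p x ∈ P
  Q : Set G
  hQ : IsCompact Q
  hB : ∀ x, B x ∈ Q
  hBp : ∀ x, B x • p x = p (g x)
  hπ : ∀ x y, dist x y < η → π x y ∈ Q
  small : ∀ O ∈ 𝓝ˢ (diagonal Y), ∃ δ > 0, ∀ x y, dist x y < δ → (p x, π x y • p y) ∈ O
  inj : ∀ x y, SR g.symm η x y → π x y • p y = p x → x = y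
  expand : ∀ K : Set (Y × Y), IsCompact K → Disjoint K (diagonal Y) → ∀ L : Set Y, IsCompact L →
    ∃ n₀ : ℕ, ∀ n ≥ n₀, ∀ x v, (p x, v) ∈ K → toLC.Bn n x • v ∉ L

namespace TS

variable {g : X ≃ₜ X} {G Y : Type*} [Group G] [TopologicalSpace G] [IsTopologicalGroup G]
  [TopologicalSpace Y] [T2Space Y] [LocallyCompactSpace Y] [MulAction G Y] [ContinuousSMul G Y]
  (C : TS g G Y)

/-- `n`-fold products of elements of `Q` -/
def Qn (n : ℕ) : Set G := C.Q ^ n

theorem Qn_compact (n : ℕ) : IsCompact (C.Qn n) := by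
  unfold Qn
  induction n with
  | zero => rw [pow_zero]; exact isCompact_singleton
  | succ n ih => rw [pow_succ]; exact ih.mul C.hQ

theorem Bn_mem (n : ℕ) (x : X) : C.Bn n x ∈ C.Qn n := by
  unfold Qn
  induction n with
  | zero => rw [pow_zero]; exact rfl
  | succ n ih =>
    rw [pow_succ', LC.Bn_succ]
    exact Set.mul_mem_mul (C.hB _) ih

theorem Bn_p (n : ℕ) (x : X) : C.Bn n x • C.p x = C.p (g^[n] x) := by
  induction n with
  | zero => simp
  | succ n ih => rw [LC.Bn_succ, mul_smul, ih, C.hBp, Function.iterate_succ_apply']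

theorem Bn_inv_p (n : ℕ) (x : X) : (C.Bn n x)⁻¹ • C.p (g^[n] x) = C.p x := by
  rw [inv_smul_eq_iff, C.Bn_p]

/-- the displacement of positions -/
def PQ : Set Y := (fun q : G × Y => q.1 • q.2) '' (C.Q ×ˢ C.P)

theorem PQ_compact : IsCompact C.PQ := (C.hQ.prod C.hP).image continuous_smul

/-- (b) the positions agree along local stable sets -/
theorem exists_stable : ∃ η₁ > 0, η₁ < C.η ∧ ∀ x y, SR g η₁ x y → C.π x y • C.p y = C.p x := by
  have hη := C.η_pos
  refine ⟨C.η / 2, half_pos hη, half_lt_self hη, fun x y hxy => ?_⟩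
  have hlt : ∀ n : ℕ, dist (g^[n] x) (g^[n] y) < C.η := fun n => (hxy n).trans_lt (half_lt_self hη)
  have h2 : ∀ n : ℕ, C.π (g^[n] x) (g^[n] y) = C.Bn n x * C.π x y * (C.Bn n y)⁻¹ := by
    intro n
    induction n with
    | zero => simp
    | succ n ih =>
      have a1 := hlt n
      have a2 := hlt (n + 1)
      rw [Function.iterate_succ_apply', Function.iterate_succ_apply'] at a2
      have a3 := C.equi _ _ a1 a2
      rw [Function.iterate_succ_apply', Function.iterate_succ_apply', eq_comm,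
        LC.Bn_succ, LC.Bn_succ, mul_inv_rev, ← mul_assoc, mul_inv_eq_iff_eq_mul, a3, ih]
      simp only [mul_assoc]
  by_contra hne
  obtain ⟨n₀, hn₀⟩ := C.expand {(C.p x, C.π x y • C.p y)} isCompact_singleton
    (by
      rw [disjoint_singleton_left]
      intro h
      exact hne h.symm) _ C.PQ_compact
  refine hn₀ n₀ le_rfl x _ rfl ⟨(C.π (g^[n₀] x) (g^[n₀] y), C.p (g^[n₀] y)),
    ⟨C.hπ _ _ (hlt n₀), C.hp _⟩, ?_⟩
  show C.π (g^[n₀] x) (g^[n₀] y) • C.p (g^[n₀] y) = _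
  rw [h2, mul_smul, mul_smul, C.Bn_inv_p]

theorem cs_p {x y : X} (h : WS g x y) : C.cs x y • C.p y = C.p x := by
  obtain ⟨η₁, hη₁, hlt, h1⟩ := C.exists_stable
  obtain ⟨n, hn⟩ := h.eventually_lt hη₁
  rw [C.cs_val h n fun k hk => (hn k hk).trans hlt, mul_smul, mul_smul, C.Bn_p,
    h1 _ _ (fun k => by
      rw [← Function.iterate_add_apply, ← Function.iterate_add_apply]
      exact (hn _ (by omega)).le), C.Bn_inv_p]

theorem cs_inv_p {x y : X} (h : WS g x y) : (C.cs x y)⁻¹ • C.p x = C.p y := by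
  rw [inv_smul_eq_iff, C.cs_p h]

/-- the set of pairs at unit level -/
def Kp (g : X ≃ₜ X) (ε : ℝ) : Set (X × X) :=
  {p | SR g.symm ε p.1 p.2} ∩ {p | ε ≤ dist (g p.1) (g p.2)}

theorem Kp_compact [CompactSpace X] (g : X ≃ₜ X) (ε : ℝ) : IsCompact (Kp g ε) := by
  refine IsClosed.isCompact ((isClosed_SR g.symm ε).inter (isClosed_le continuous_const ?_))
  exact (g.continuous.comp continuous_fst).dist (g.continuous.comp continuous_snd)

/-- a criterion for convergence to the same limit -/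
theorem lim_eq {A : Type*} {W : Filter A} [W.NeBot] {u v : A → Y} {a b : Y}
    (hu : Tendsto u W (𝓝 a)) (hv : Tendsto v W (𝓝 b))
    (h : Tendsto (fun i => (u i, v i)) W (𝓝ˢ (diagonal Y))) : a = b := by
  by_contra hab
  obtain ⟨U, V, hU, hV, haU, hbV, hUV⟩ := t2_separation hab
  obtain ⟨A', hA', hA'c, hA'U⟩ := exists_mem_nhds_isClosed_subset (hU.mem_nhds haU)
  obtain ⟨B', hB', hB'c, hB'V⟩ := exists_mem_nhds_isClosed_subset (hV.mem_nhds hbV)
  have h1 : (A' ×ˢ B')ᶜ ∈ 𝓝ˢ (diagonal Y) := by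
    refine ((hA'c.prod hB'c).isOpen_compl).mem_nhdsSet.mpr ?_
    rintro ⟨y, z⟩ (hyz : y = z) ⟨h2, h3⟩
    subst hyz
    exact (disjoint_left.mp hUV) (hA'U h2) (hB'V h3)
  have h2 : ∀ᶠ i in W, (u i, v i) ∈ (A' ×ˢ B')ᶜ := h h1
  obtain ⟨i, ⟨h3, h4⟩, h5⟩ := (((hu.eventually_mem hA').and (hv.eventually_mem hB')).and h2).exists
  exact h5 ⟨h3, h4⟩

/-- limits along ultrafilters -/
theorem ult_lim {A Z : Type*} [TopologicalSpace Z] (W : Ultrafilter A) {K : Set Z}
    (hK : IsCompact K) (u : A → Z) (hu : ∀ᶠ q in (W : Filter A), u q ∈ K) :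
    ∃ z, Tendsto u W (𝓝 z) := by
  obtain ⟨z, -, hz⟩ := hK.ultrafilter_le_nhds (W.map u) (by
    rw [le_principal_iff, Ultrafilter.coe_map, mem_map]
    exact hu)
  exact ⟨z, hz⟩

/-- pairs at unit level do not have close positions -/
theorem exists_nhd [CompactSpace X] {ε : ℝ} (hε : 0 < ε) (hεη : ε < C.η) :
    ∃ O ∈ 𝓝ˢ (diagonal Y), ∀ q ∈ Kp g ε, (C.p q.1, C.π q.1 q.2 • C.p q.2) ∉ O := by
  by_contra hcon
  push Not at hcon
  let F : Filter (X × X) :=
    comap (fun q : X × X => (C.p q.1, C.π q.1 q.2 • C.p q.2)) (𝓝ˢ (diagonal Y)) ⊓ 𝓟 (Kp g ε)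
  have hF : F.NeBot := by
    rw [Filter.inf_principal_neBot_iff]
    intro U hU
    obtain ⟨O, hO, hOU⟩ := hU
    obtain ⟨q, hq, hq'⟩ := hcon O hO
    exact ⟨q, hOU hq', hq⟩
  obtain ⟨W, hW⟩ := Ultrafilter.exists_le F
  have hWK : Kp g ε ∈ W := hW (mem_inf_of_right (mem_principal_self _))
  have hWo : Tendsto (fun q : X × X => (C.p q.1, C.π q.1 q.2 • C.p q.2)) W (𝓝ˢ (diagonal Y)) :=
    tendsto_comap.mono_left (hW.trans inf_le_left)
  obtain ⟨q₀, hq₀, hWq⟩ := (Kp_compact g ε).ultrafilter_le_nhds W (le_principal_iff.mpr hWK)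
  have hfst : Tendsto (fun q : X × X => q.1) W (𝓝 q₀.1) := (continuous_fst.tendsto q₀).mono_left hWq
  have hsnd : Tendsto (fun q : X × X => q.2) W (𝓝 q₀.2) := (continuous_snd.tendsto q₀).mono_left hWq
  have hη := C.η_pos
  have hd0 : dist q₀.1 q₀.2 < C.η := (hq₀.1 0).trans_lt hεη
  have e1 : ∀ᶠ q in (W : Filter (X × X)), dist q₀.1 q.1 < C.η := by
    filter_upwards [hfst (ball_mem_nhds _ hη)] with q hq
    rw [dist_comm]; exact hq
  have e2 : ∀ᶠ q in (W : Filter (X × X)), dist q.2 q₀.2 < C.η := by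
    filter_upwards [hsnd (ball_mem_nhds _ hη)] with q hq
    exact hq
  have e3 : ∀ᶠ q in (W : Filter (X × X)), dist q.1 q.2 < C.η := by
    filter_upwards [hWK] with q hq
    exact (hq.1 0).trans_lt hεη
  have e4 : ∀ᶠ q in (W : Filter (X × X)), dist q.1 q₀.2 < C.η := by
    have : 0 < C.η - dist q₀.1 q₀.2 := by linarith
    filter_upwards [hfst (ball_mem_nhds _ this)] with q hq
    have := dist_triangle q.1 q₀.1 q₀.2
    have hq' : dist q.1 q₀.1 < C.η - dist q₀.1 q₀.2 := hq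
    linarith
  obtain ⟨k, hk⟩ := ult_lim W C.hQ (fun q => C.π q.1 q.2) (e3.mono fun q hq => C.hπ _ _ hq)
  obtain ⟨k', hk'⟩ := ult_lim W C.hQ (fun q => C.π q₀.1 q.1) (e1.mono fun q hq => C.hπ _ _ hq)
  obtain ⟨P₁, hP₁⟩ := ult_lim W C.hP (fun q => C.p q.1) (Eventually.of_forall fun q => C.hp _)
  obtain ⟨P₂, hP₂⟩ := ult_lim W C.hP (fun q => C.p q.2) (Eventually.of_forall fun q => C.hp _)
  obtain ⟨P₃, hP₃⟩ := ult_lim W C.PQ_compact (fun q => C.π q.2 q₀.2 • C.p q₀.2)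
    (e2.mono fun q hq => ⟨(_, _), ⟨C.hπ _ _ hq, C.hp _⟩, rfl⟩)
  have s1 : P₁ = k • P₂ := lim_eq hP₁ (hk.smul hP₂) hWo
  have s2 : C.p q₀.1 = k' • P₁ := by
    refine lim_eq tendsto_const_nhds (hk'.smul hP₁) ?_
    intro O hO
    obtain ⟨δ, hδ, h1⟩ := C.small O hO
    rw [mem_map]
    filter_upwards [hfst (ball_mem_nhds _ hδ)] with q hq
    refine h1 _ _ ?_
    rw [dist_comm]; exact hq
  have s3 : P₂ = P₃ := by
    refine lim_eq hP₂ hP₃ ?_
    intro O hO
    obtain ⟨δ, hδ, h1⟩ := C.small O hO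
    rw [mem_map]
    filter_upwards [hsnd (ball_mem_nhds _ hδ)] with q hq
    exact h1 _ _ hq
  have hlim : Tendsto (fun q : X × X => C.π q₀.1 q.1 • (C.π q.1 q.2 • (C.π q.2 q₀.2 • C.p q₀.2))) W
      (𝓝 (k' • (k • P₃))) := hk'.smul (hk.smul hP₃)
  have heq : ∀ᶠ q in (W : Filter (X × X)),
      C.π q₀.1 q.1 • (C.π q.1 q.2 • (C.π q.2 q₀.2 • C.p q₀.2)) = C.π q₀.1 q₀.2 • C.p q₀.2 := by
    filter_upwards [e1, e2, e3, e4] with q h1 h2 h3 h4
    rw [← mul_smul (C.π q.1 q.2), ← C.add _ _ _ h3 h2 h4, ← mul_smul, ← C.add _ _ _ h1 h4 hd0]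
  have hfin : C.π q₀.1 q₀.2 • C.p q₀.2 = C.p q₀.1 := by
    have h1 : Tendsto (fun _ : X × X => C.π q₀.1 q₀.2 • C.p q₀.2) W (𝓝 (k' • (k • P₃))) :=
      hlim.congr' heq
    have h2 := tendsto_nhds_unique tendsto_const_nhds h1
    rw [h2, ← s3, ← s1, ← s2]
  have h1 := C.inj _ _ (hq₀.1.mono hεη.le) hfin
  have h2 : ε ≤ dist (g q₀.1) (g q₀.2) := hq₀.2
  rw [h1, dist_self] at h2
  linarith

/-- the positions of pairs at unit level are in a compact set off the diagonal -/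
theorem exists_K [CompactSpace X] {ε : ℝ} (hε : 0 < ε) (hεη : ε < C.η) :
    ∃ K : Set (Y × Y), IsCompact K ∧ Disjoint K (diagonal Y) ∧
      ∀ q ∈ Kp g ε, (C.p q.1, C.π q.1 q.2 • C.p q.2) ∈ K := by
  obtain ⟨O, hO, h1⟩ := C.exists_nhd hε hεη
  obtain ⟨O', hO', hdO', hO'O⟩ := mem_nhdsSet_iff_exists.mp hO
  refine ⟨(C.P ×ˢ C.PQ) \ O', (C.hP.prod C.PQ_compact).diff hO', ?_, fun q hq =>
    ⟨⟨C.hp _, ⟨(_, _), ⟨C.hπ _ _ ((hq.1 0).trans_lt hεη), C.hp _⟩, rfl⟩⟩,
      fun h => h1 q hq (hO'O h)⟩⟩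
  rw [disjoint_left]
  exact fun z hz hd => hz.2 (hdO' hd)

/-- the level of a pair on an unstable leaf -/
theorem exists_level {ε : ℝ} (hε : 0 < ε) {x y : X} (hxy : WS g.symm x y) :
    ∃ N : ℕ, SR g.symm ε (g.symm^[N] x) (g.symm^[N] y) ∧
      (N ≠ 0 → (g.symm^[N] x, g.symm^[N] y) ∈ Kp g ε) := by
  have hex : ∃ N, SR g.symm ε (g.symm^[N] x) (g.symm^[N] y) := by
    obtain ⟨N, hN⟩ := hxy.eventually_lt hε
    exact ⟨N, fun k => by
      rw [← Function.iterate_add_apply, ← Function.iterate_add_apply]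
      exact (hN _ (by omega)).le⟩
  classical
  have hN := Nat.find_spec hex
  have hmin' := fun k (hk : k < Nat.find hex) => Nat.find_min hex hk
  set N := Nat.find hex
  refine ⟨N, hN, fun hN0 => ⟨hN, ?_⟩⟩
  obtain ⟨j, hj⟩ := Nat.exists_eq_succ_of_ne_zero hN0
  have h1 := hmin' j (by omega)
  have e1 : ∀ z : X, g (g.symm^[N] z) = g.symm^[j] z := fun z => by
    rw [hj, Nat.succ_eq_add_one, Function.iterate_succ_apply' g.symm, g.apply_symm_apply]
  show ε ≤ dist (g (g.symm^[N] x)) (g (g.symm^[N] y))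
  by_contra h3
  push Not at h3
  apply h1
  intro k
  rcases k with _ | k
  · rw [e1, e1] at h3
    exact h3.le
  · have := hN k
    rw [hj, Nat.succ_eq_add_one, ← Function.iterate_add_apply, ← Function.iterate_add_apply] at this
    rw [← Function.iterate_add_apply, ← Function.iterate_add_apply]
    rwa [show k + 1 + j = k + (j + 1) by omega]

/-- the displacement of the positions through a level -/
theorem cu_p_eq {ε : ℝ} (hεη : ε < C.η) {x y : X} {N : ℕ}
    (hN : SR g.symm ε (g.symm^[N] x) (g.symm^[N] y)) :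
    C.cu x y • C.p y = C.Bn N (g.symm^[N] x) •
      (C.π (g.symm^[N] x) (g.symm^[N] y) • C.p (g.symm^[N] y)) := by
  have h4 : C.Fr x y N := fun k hk => by
    obtain ⟨i, rfl⟩ := Nat.exists_eq_add_of_le hk
    have := hN i
    rw [← Function.iterate_add_apply, ← Function.iterate_add_apply, Nat.add_comm i N] at this
    exact this.trans_lt hεη
  have h5 := C.Bn_inv_p N (g.symm^[N] y)
  rw [iterR] at h5
  rw [C.cu_eq h4]
  unfold LC.val
  rw [mul_smul, mul_smul, h5]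

theorem p_eq (N : ℕ) (x : X) : C.p x = C.Bn N (g.symm^[N] x) • C.p (g.symm^[N] x) := by
  rw [C.Bn_p, iterR]

/-- (e) bounded displacements have bounded levels -/
theorem level [CompactSpace X] {ε : ℝ} (hε : 0 < ε) {L : Set Y} (hL : IsCompact L) :
    ∃ j : ℕ, ∀ x y, WS g.symm x y → C.cu x y • C.p y ∈ L →
      SR g.symm ε (g.symm^[j] x) (g.symm^[j] y) := by
  have hη := C.η_pos
  set ε' := min ε (C.η / 2) with hε'
  have hε'0 : 0 < ε' := lt_min hε (half_pos hη)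
  have hε'η : ε' < C.η := (min_le_right _ _).trans_lt (half_lt_self hη)
  obtain ⟨K, hK, hoK, hKp⟩ := C.exists_K hε'0 hε'η
  obtain ⟨n₀, hn₀⟩ := C.expand K hK hoK L hL
  refine ⟨n₀, fun x y hxy hin => ?_⟩
  obtain ⟨N, hN1, hN2⟩ := exists_level hε'0 hxy
  have hNn : N ≤ n₀ := by
    by_contra hcon
    push Not at hcon
    have hN0 : N ≠ 0 := by omega
    have h1 := hKp _ (hN2 hN0)
    have h2 := hn₀ N hcon.le (g.symm^[N] x) _ h1
    rw [← C.cu_p_eq hε'η hN1] at h2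
    exact h2 hin
  obtain ⟨i, rfl⟩ := Nat.exists_eq_add_of_le hNn
  intro k
  have h3 := hN1 (k + i)
  rw [← Function.iterate_add_apply, ← Function.iterate_add_apply] at h3
  rw [← Function.iterate_add_apply, ← Function.iterate_add_apply,
    show k + (N + i) = k + i + N by omega]
  exact h3.trans (min_le_left _ _)

theorem cu_inj {x y : X} (hxy : WS g.symm x y) (h0 : C.cu x y • C.p y = C.p x) :
    x = y := by
  obtain ⟨N, hN1, hN2⟩ := exists_level (g := g) (half_pos C.η_pos) hxy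
  have hlt := half_lt_self C.η_pos
  have h1 := C.cu_p_eq hlt hN1
  rw [h0, C.p_eq N x] at h1
  have h2 := C.inj _ _ (hN1.mono hlt.le) (smul_left_cancel _ h1).symm
  have h3 := congrArg (g^[N]) h2
  rwa [iterR, iterR] at h3

theorem cu_cancel {x y z : X} (h1 : WS g.symm x y) (h2 : WS g.symm x z)
    (h : C.cu x y • C.p y = C.cu x z • C.p z) : y = z := by
  apply C.cu_inj (h1.symm'.trans h2)
  rw [C.cu_mul h1.symm' h2, C.cu_inv h1, mul_smul, ← h, inv_smul_smul]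

/-- (f) small displacements are close -/
theorem cu_small [CompactSpace X] {ε : ℝ} (hε : 0 < ε) :
    ∃ O ∈ 𝓝ˢ (diagonal Y), ∀ x y, WS g.symm x y → (C.p x, C.cu x y • C.p y) ∈ O →
      SR g.symm ε x y := by
  have hη := C.η_pos
  set ε' := min ε (C.η / 2) with hε'
  have hε'0 : 0 < ε' := lt_min hε (half_pos hη)
  have hε'η : ε' < C.η := (min_le_right _ _).trans_lt (half_lt_self hη)
  obtain ⟨K, hK, hoK, hKp⟩ := C.exists_K hε'0 hε'η
  obtain ⟨L, hL, hLP⟩ := exists_compact_superset C.hP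
  obtain ⟨n₀, hn₀⟩ := C.expand K hK hoK L hL
  -- finitely many levels
  let S : ℕ → Set (Y × Y) := fun N =>
    (fun q : G × (Y × Y) => (q.1 • q.2.1, q.1 • q.2.2)) '' (C.Qn N ×ˢ K)
  have hS : ∀ N, IsCompact (S N) := fun N => ((C.Qn_compact N).prod hK).image (by fun_prop)
  have hoS : ∀ N, diagonal Y ⊆ (S N)ᶜ := by
    rintro N ⟨a, b⟩ (hab : a = b) ⟨⟨k, v, w⟩, ⟨_, hv⟩, hkv⟩
    rw [Prod.mk.injEq] at hkv
    have : v = w := smul_left_cancel k (hkv.1.trans (hab.trans hkv.2.symm))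
    exact (disjoint_left.mp hoK) hv this
  have hO2 : (⋂ N ∈ Finset.range n₀, (S N)ᶜ) ∈ 𝓝ˢ (diagonal Y) := by
    rw [Filter.biInter_finset_mem]
    exact fun N _ => (hS N).isClosed.isOpen_compl.mem_nhdsSet.mpr (hoS N)
  have hO1 : ((univ ×ˢ interior L) ∪ (C.Pᶜ ×ˢ univ) : Set (Y × Y)) ∈ 𝓝ˢ (diagonal Y) := by
    refine ((isOpen_univ.prod isOpen_interior).union
      (C.hP.isClosed.isOpen_compl.prod isOpen_univ)).mem_nhdsSet.mpr ?_
    rintro ⟨a, b⟩ (hab : a = b)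
    subst hab
    by_cases ha : a ∈ C.P
    · exact Or.inl ⟨mem_univ _, hLP ha⟩
    · exact Or.inr ⟨ha, mem_univ _⟩
  refine ⟨_, inter_mem hO1 hO2, fun x y hxy hin => ?_⟩
  obtain ⟨N, hN1, hN2⟩ := exists_level hε'0 hxy
  rcases Nat.eq_zero_or_pos N with hN0 | hN0
  · subst hN0
    exact hN1.mono (min_le_left _ _)
  · exfalso
    have h1 := hKp _ (hN2 (by omega))
    rw [C.cu_p_eq hε'η hN1] at hin
    rcases Nat.lt_or_ge N n₀ with hlt | hge
    · have h2 := hin.2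
      rw [mem_iInter₂] at h2
      refine h2 N (Finset.mem_range.mpr hlt) ⟨(C.Bn N (g.symm^[N] x), _),
        ⟨C.Bn_mem _ _, h1⟩, ?_⟩
      rw [C.p_eq N x]
    · rcases hin.1 with h3 | h3
      · exact hn₀ N hge _ _ h1 (interior_subset h3.2)
      · exact h3.1 (C.hp _)

/-- (g) a converse of (f) -/
theorem cu_lt {O : Set (Y × Y)} (hO : O ∈ 𝓝ˢ (diagonal Y)) :
    ∃ δ > 0, δ < C.η ∧ ∀ x y, SR g.symm δ x y → (C.p x, C.cu x y • C.p y) ∈ O := by
  obtain ⟨δ, hδ, h1⟩ := C.small O hO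
  have hη := C.η_pos
  have h2 : min (δ / 2) (C.η / 2) < C.η := (min_le_right _ _).trans_lt (half_lt_self hη)
  refine ⟨min (δ / 2) (C.η / 2), lt_min (half_pos hδ) (half_pos hη), h2, fun x y hxy => ?_⟩
  rw [C.cu_eq_π h2 hxy]
  exact h1 _ _ (((hxy 0).trans (min_le_left _ _)).trans_lt (half_lt_self hδ))

end TS

end Pool.Agent.N234.TG
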